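import Mathlib

namespace Pool.Agent.Results.MP_8a5df5_al.No
open FreeAlgebra

/-- free algebra on the entries of an n by n matrix -/
abbrev Fr (n : ℕ) := FreeAlgebra ℂ (Fin n × Fin n)

/-- relations of the free hyperoctahedral quantum group: orthogonal and cubic -/
def RelH (n : ℕ) (a b : Fr n) : Prop :=
  (∃ i j, a = ∑ k, ι ℂ (i, k) * ι ℂ (j, k) ∧ b = if i = j then 1 else 0) ∨
  (∃ i j, a = ∑ k, ι ℂ (k, i) * ι ℂ (k, j) ∧ b = if i = j then 1 else 0) ∨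
  (∃ i j k, j ≠ k ∧ a = ι ℂ (i, j) * ι ℂ (i, k) ∧ b = 0) ∨
  (∃ i j k, j ≠ k ∧ a = ι ℂ (j, i) * ι ℂ (k, i) ∧ b = 0)

/-- relations of the quantum symmetric group: magic unitary -/
def RelS (N : ℕ) (a b : Fr N) : Prop :=
  (∃ p, a = ι ℂ p * ι ℂ p ∧ b = ι ℂ p) ∨
  (∃ i, a = ∑ k, ι ℂ (i, k) ∧ b = 1) ∨ (∃ j, a = ∑ k, ι ℂ (k, j) ∧ b = 1)

open Classical in
/-- relations of the quantum automorphism group of a graph: magic unitary commuting with A -/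
def RelG {N : ℕ} (X : SimpleGraph (Fin N)) (a b : Fr N) : Prop :=
  RelS N a b ∨ ∃ i j, a = ∑ k, (if X.Adj k j then ι ℂ (i, k) else 0) ∧
    b = ∑ k, (if X.Adj i k then ι ℂ (k, j) else 0)

/-- the projective version: subalgebra generated by the products of two generators -/
noncomputable def PH (n : ℕ) : Subalgebra ℂ (RingQuot (RelH n)) :=
  Algebra.adjoin ℂ {x | ∃ p q, x = RingQuot.mkAlgHom ℂ (RelH n) (ι ℂ p * ι ℂ q)}

lemma fin_chars {N : ℕ} (R : Fr N → Fr N → Prop) (hR : ∀ p, R (ι ℂ p * ι ℂ p) (ι ℂ p)) :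
    Finite (RingQuot R →ₐ[ℂ] ℂ) := by
  let F : (RingQuot R →ₐ[ℂ] ℂ) → (Fin N × Fin N → Prop) :=
    fun χ p => χ (RingQuot.mkAlgHom ℂ R (ι ℂ p)) = 0
  refine Finite.of_injective F fun χ ψ h => ?_
  have idem : ∀ (χ : RingQuot R →ₐ[ℂ] ℂ) p, χ (RingQuot.mkAlgHom ℂ R (ι ℂ p)) = 0 ∨
      χ (RingQuot.mkAlgHom ℂ R (ι ℂ p)) = 1 := fun χ p => by
    have h1 := congrArg χ (RingQuot.mkAlgHom_rel ℂ (hR p))
    rw [map_mul, map_mul] at h1
    exact IsIdempotentElem.iff_eq_zero_or_one.1 h1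
  apply RingQuot.ringQuot_ext'
  apply FreeAlgebra.hom_ext
  funext p
  have h2 : F χ p ↔ F ψ p := by rw [h]
  simp only [F] at h2
  change χ (RingQuot.mkAlgHom ℂ R (ι ℂ p)) = ψ (RingQuot.mkAlgHom ℂ R (ι ℂ p))
  rcases idem χ p with a | a <;> rcases idem ψ p with b | b <;> simp_all

noncomputable def g (z : ℂ) {n : ℕ} (i : Fin n) : Matrix (Fin 2) (Fin 2) ℂ :=
  if i.val = 0 then !![0, 1; 1, 0] else !![0, z⁻¹; z, 0]

lemma g_sq {z : ℂ} (hz : z ≠ 0) {n : ℕ} (i : Fin n) : g z i * g z i = 1 := by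
  unfold g
  split_ifs <;> ext a b <;> fin_cases a <;> fin_cases b <;> simp [Matrix.mul_apply, hz]

noncomputable def rho (n : ℕ) {z : ℂ} (hz : z ≠ 0) :
    RingQuot (RelH n) →ₐ[ℂ] Matrix (Fin 2) (Fin 2) ℂ :=
  RingQuot.liftAlgHom ℂ ⟨FreeAlgebra.lift ℂ fun p => if p.1 = p.2 then g z p.1 else 0, by
    rintro a b (⟨i, j, rfl, rfl⟩ | ⟨i, j, rfl, rfl⟩ | ⟨i, j, k, h, rfl, rfl⟩ |
      ⟨i, j, k, h, rfl, rfl⟩)
    · by_cases h : i = j
      · subst h; simp [g_sq hz]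
      · simp [h, Ne.symm h]
    · by_cases h : i = j
      · subst h; simp [g_sq hz]
      · simp [h, Ne.symm h]
    · by_cases h1 : i = j
      · subst h1; simp [h]
      · simp [h1]
    · by_cases h1 : j = i
      · subst h1; simp [Ne.symm h]
      · simp [h1]⟩

lemma rho_mk (n : ℕ) {z : ℂ} (hz : z ≠ 0) (p q : Fin n × Fin n) :
    rho n hz (RingQuot.mkAlgHom ℂ (RelH n) (ι ℂ p * ι ℂ q)) =
      (if p.1 = p.2 then g z p.1 else 0) * (if q.1 = q.2 then g z q.1 else 0) := by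
  simp only [rho, RingQuot.liftAlgHom_mkAlgHom_apply, map_mul, FreeAlgebra.lift_ι_apply]

lemma rho_tri (n : ℕ) {z : ℂ} (hz : z ≠ 0) {x : RingQuot (RelH n)} (hx : x ∈ PH n) :
    rho n hz x 1 0 = 0 := by
  induction hx using Algebra.adjoin_induction with
  | mem x h =>
    obtain ⟨p, q, rfl⟩ := h
    rw [rho_mk]
    unfold g
    split_ifs <;> simp [Matrix.mul_apply]
  | algebraMap r => simp [Matrix.algebraMap_matrix_apply]
  | add x y _ _ hx hy => simp [hx, hy]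
  | mul x y _ _ hx hy => simp [Matrix.mul_apply, hx, hy]

noncomputable def chi (n : ℕ) {z : ℂ} (hz : z ≠ 0) : PH n →ₐ[ℂ] ℂ where
  toFun x := rho n hz x.1 0 0
  map_one' := by simp
  map_mul' x y := by simp [Matrix.mul_apply, rho_tri n hz y.2]
  map_zero' := by simp
  map_add' x y := by simp
  commutes' r := by simp [Matrix.algebraMap_matrix_apply]

lemma no_surj {n : ℕ} (hn : 2 ≤ n) {N : ℕ} (R : Fr N → Fr N → Prop)
    (hR : ∀ p, R (ι ℂ p * ι ℂ p) (ι ℂ p)) (φ : RingQuot R →ₐ[ℂ] PH n) :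
    ¬ Function.Surjective φ := by
  intro hφ
  haveI := fin_chars R hR
  let a : Fin n := ⟨0, by omega⟩
  let b : Fin n := ⟨1, by omega⟩
  obtain ⟨y, hy⟩ := hφ ⟨RingQuot.mkAlgHom ℂ (RelH n) (ι ℂ (a, a) * ι ℂ (b, b)),
    Algebra.subset_adjoin ⟨_, _, rfl⟩⟩
  let F : ℕ → (RingQuot R →ₐ[ℂ] ℂ) := fun k =>
    (chi n (z := (k : ℂ) + 1) (by exact_mod_cast k.succ_ne_zero)).comp φ
  have hF : ∀ k, F k y = (k : ℂ) + 1 := fun k => by
    change rho n _ (φ y).1 0 0 = _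
    rw [hy, rho_mk]
    simp [g, a, b, Matrix.mul_apply]
  refine not_injective_infinite_finite F fun k l h => ?_
  have := hF k
  rw [h, hF l] at this
  exact_mod_cast (add_right_cancel this).symm

theorem result : ∀ n : ℕ, 2 ≤ n →
    (∀ (N : ℕ) (X : SimpleGraph (Fin N)), IsEmpty (RingQuot (RelG X) ≃ₐ[ℂ] PH n)) ∧
    ∀ (N : ℕ) (φ : RingQuot (RelS N) →ₐ[ℂ] PH n), ¬ Function.Surjective φ := by
  intro n hn
  refine ⟨fun N X => ⟨fun e => ?_⟩, fun N φ => no_surj hn _ (fun p => Or.inl ⟨p, rfl, rfl⟩) φ⟩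
  exact no_surj hn (RelG X) (fun p => Or.inl (Or.inl ⟨p, rfl, rfl⟩)) e.toAlgHom e.surjective

end Pool.Agent.Results.MP_8a5df5_al.No
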